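import Pool.Agent.H74.IF.Basic

/-!
# MP_e42d43_lc: if every idempotent filter on ℕ extends to an ultrafilter, then so does every filter

The definitions (`World`, `IsFilterIn`, …) are in `Pool.Agent.H74.IF.Basic`.
-/

set_option autoImplicit false

namespace Pool.Agent.Results.MP_e42d43_lc.IdempotentGivesUT

open Pool.Agent.H74.IF

/-- Let `R`, `M` be closed under the operations listed in `World`. If every idempotent filter in `M`
is contained in an ultrafilter in `M` (for instance in an idempotent one, statement (b)), then every
filter in `M` is contained in an ultrafilter in `M`. -/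
theorem result (R : Set (Set ℕ+)) (M : Set (Set (Set ℕ+))) (hW : World R M)
    (hb : ∀ F ∈ M, IsFilterIn R F → F ⊆ psum R F F → ∃ U ∈ M, IsUltraIn R U ∧ F ⊆ U) :
    ∀ F ∈ M, IsFilterIn R F → ∃ U ∈ M, IsUltraIn R U ∧ F ⊆ U :=
  ut R M hW hb

end Pool.Agent.Results.MP_e42d43_lc.IdempotentGivesUT
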