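import Pool.Agent.H74.IF.Basic

/-!
# MP_e42d43_lc: (b) implies (a) for additive filters with a base in an inner model of (a)

The definitions (`World`, `Inner`, `StatementA`, …) are in `Pool.Agent.H74.IF.Basic`.
-/

set_option autoImplicit false

namespace Pool.Agent.Results.MP_e42d43_lc.InnerModelBase

open Pool.Agent.H74.IF

/-- Let `R'`, `M'` be an inner world of `R`, `M`, and suppose that (b) holds in `R`, `M` and (a) holds in
`R'`, `M'`. Then every additive filter `F` in `R`, `M` which has a base in `R'` and whose trace `F ∩ R'`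
is in `M'` extends to an idempotent ultrafilter in `M`. -/
theorem result (R : Set (Set ℕ+)) (M : Set (Set (Set ℕ+))) (R' : Set (Set ℕ+))
    (M' : Set (Set (Set ℕ+))) (hW : World R M) (hI : Inner R M R' M') (hb : StatementB R M)
    (ha : StatementA R' M') (F : Set (Set ℕ+)) (hF : IsFilterIn R F)
    (hadd : IsAdditiveIn R M F) (hF' : F ∩ R' ∈ M') (hbase : ∀ A ∈ F, ∃ B ∈ F ∩ R', B ⊆ A) :
    ∃ U ∈ M, IsUltraIn R U ∧ psum R U U = U ∧ F ⊆ U :=
  main R M R' M' hW hI hb ha F hF hadd hF' hbase

end Pool.Agent.Results.MP_e42d43_lc.InnerModelBase
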